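import Pool.Agent.W425.MM.Defs

set_option autoImplicit false

/-! Project PN: p-adic zeta functions of nondegenerate polynomials: the Nullstellensatz. -/

namespace Pool.Agent.W425.PN

open MvPolynomial
open Pool.Agent.W426.SM (gord face)
open Pool.Agent.W425.MM (NonD)

/-- the identity of the Nullstellensatz for the face `τ` -/
def Idn {F : Type} [Field F] {n k : ℕ} (m : Fin k → Fin n → ℕ) (c : Fin k → F)
    (τ : Finset (Fin k)) : Prop :=
  ∃ (M : ℕ) (B0 : MvPolynomial (Fin n) F) (B : Fin n → MvPolynomial (Fin n) F),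
    (∏ i, X i : MvPolynomial (Fin n) F) ^ M =
      B0 * (∑ j ∈ τ, C (c j) * ∏ i, X i ^ m j i) +
        ∑ i, B i * ∑ j ∈ τ, C (c j * (m j i : F)) * ∏ i', X i' ^ m j i'

theorem idn_of {F : Type} [Field F] [Algebra F ℂ] {n k : ℕ} (m : Fin k → Fin n → ℕ)
    (c : Fin k → F) (h : NonD m (fun j => algebraMap F ℂ (c j))) (u : Fin n → ℕ) :
    Idn m c (Finset.univ.filter fun j => ∑ i, u i * m j i = gord m u) := by
  classical
  set τ : Finset (Fin k) := Finset.univ.filter fun j => ∑ i, u i * m j i = gord m u with hτ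
  set F0 : MvPolynomial (Fin n) F := ∑ j ∈ τ, C (c j) * ∏ i, X i ^ m j i with hF0
  set Fi : Fin n → MvPolynomial (Fin n) F := fun i =>
    ∑ j ∈ τ, C (c j * (m j i : F)) * ∏ i', X i' ^ m j i' with hFi
  set I : Ideal (MvPolynomial (Fin n) F) := Ideal.span (insert F0 (Set.range Fi)) with hI
  have hmem : (∏ i, X i : MvPolynomial (Fin n) F) ∈ I.radical := by
    rw [← vanishingIdeal_zeroLocus_eq_radical (K := ℂ), mem_vanishingIdeal_iff]
    intro z hz
    rw [mem_zeroLocus_iff] at hz
    rw [map_prod]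
    by_contra hne
    simp only [aeval_X] at hne
    have hz0 : ∀ i, z i ≠ 0 := fun i hi => hne (Finset.prod_eq_zero (Finset.mem_univ i) hi)
    have h0 : aeval z F0 = 0 := hz F0 (Ideal.subset_span (Set.mem_insert _ _))
    have h1 : ∀ i, aeval z (Fi i) = 0 := fun i =>
      hz (Fi i) (Ideal.subset_span (Set.mem_insert_of_mem _ ⟨i, rfl⟩))
    obtain ⟨i, hi⟩ := h u z hz0 (by
      refine Eq.trans ?_ h0
      rw [hF0, map_sum, hτ, Finset.sum_filter]
      refine Finset.sum_congr rfl fun j _ => ?_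
      by_cases hj : ∑ i, u i * m j i = gord m u
      · rw [if_pos hj, if_pos (show face m u j from hj)]
        simp
      · have hfj : ¬ face m u j := hj
        simp only [if_neg hj, if_neg hfj])
    apply hi
    refine Eq.trans ?_ (h1 i)
    rw [hFi]
    simp only
    rw [map_sum, hτ, Finset.sum_filter]
    refine Finset.sum_congr rfl fun j _ => ?_
    by_cases hj : ∑ i, u i * m j i = gord m u
    · rw [if_pos hj, if_pos (show face m u j from hj)]
      simp [mul_assoc]
    · have hfj : ¬ face m u j := hj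
      simp only [if_neg hj, if_neg hfj]
  obtain ⟨M, hM⟩ := hmem
  rw [hI, Ideal.mem_span_insert] at hM
  obtain ⟨B0, z, hz, hMz⟩ := hM
  rw [Ideal.mem_span_range_iff_exists_fun] at hz
  obtain ⟨B, hB⟩ := hz
  exact ⟨M, B0, B, by rw [hMz, ← hB]⟩

end Pool.Agent.W425.PN
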