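import Pool.Agent.W425.PN.Zf
import Pool.Agent.W22.SM.ZP
import Pool.Agent.W565.SMZC
import Pool.Agent.W425.MM.Fin

set_option autoImplicit false

/-! Project PN: poles of the p-adic zeta functions of nondegenerate polynomials. -/

namespace Pool.Agent.W425.PN

open MeasureTheory Pool.Agent.W426.SM
open Pool.Agent.W425.MM (NonD NoB1 NonB root_int relAll TaskB1)

lemma ford_eq {n k : ℕ} (m : Fin k → Fin n → ℕ) (a : Fin n → ℕ) : ford 0 m 1 a = gord m a := by
  unfold ford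
  simp

/-- the polynomial `∑_j c_j x ^ m_j` over `ℚ` -/
noncomputable def qpoly {n k : ℕ} (m : Fin k → Fin n → ℕ) (c : Fin k → ℚ) :
    MvPolynomial (Fin n) ℚ := ∑ j, MvPolynomial.C (c j) * ∏ i, MvPolynomial.X i ^ m j i

lemma spoly_eq {n k : ℕ} (m : Fin k → Fin n → ℕ) (c : Fin k → ℚ) :
    spoly 0 m c 1 = qpoly m c := by
  unfold spoly qpoly
  simp

/-- **Candidate poles.** -/
theorem poles {n k : ℕ} (m : Fin k → Fin n → ℕ) (c : Fin k → ℚ) (hk : 0 < k)
    (hnd : NonD m (fun j => ((c j : ℚ) : ℂ))) :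
    ∃ S : Finset ℕ, ∀ (p : ℕ) [Fact p.Prime], p ∉ S →
      ∀ [MeasurableSpace (Fin n → PadicInt p)] [BorelSpace (Fin n → PadicInt p)],
      ∀ F : ℂ → ℂ, MeromorphicOn F Set.univ →
        (∀ s : ℂ, 0 < s.re →
          F s = ∫ x, ((‖MvPolynomial.eval₂ (algebraMap ℚ (Padic p))
                    (fun i => ((x i : PadicInt p) : Padic p)) (qpoly m c)‖ : ℝ) : ℂ) ^ s
                  ∂(MeasureTheory.Measure.addHaar : MeasureTheory.Measure (Fin n → PadicInt p))) →
        ∀ s₀ : ℂ, meromorphicOrderAt F s₀ < 0 → s₀.re = -1 ∨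
          ∃ a : Fin n → ℕ, IsRay m a ∧ 0 < gord m a ∧
            s₀.re = -(((∑ i, a i : ℕ) : ℝ) / gord m a) := by
  obtain ⟨S, hS⟩ := zf Pool.Agent.W565.SMZC.main 0 m c 1 hk (zm 0 m c 1 one_pos
    (zma m c hk fun u => idn_of m c hnd u))
  refine ⟨S, ?_⟩
  intro p hp hpS _ _ F hF hFI s₀ hs₀
  obtain ⟨T, ray, H, hray, hH, hHI⟩ := hS p hpS
  set I : ℂ → ℂ := fun s => ∫ x, ((pval p (spoly 0 m c 1) x : ℝ) : ℂ) ^ s
              ∂(Measure.addHaar : Measure (Fin n → PadicInt p)) with hI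
  have hz := Pool.Agent.W22.SM.ZP.main p hp.out.two_le I F H
    (Fin.cons 1 (fun q => ∑ i, ray q i) : Fin (T + 1) → ℕ)
    (Fin.cons 1 (fun q => ford 0 m 1 (ray q)) : Fin (T + 1) → ℕ) ?_ hF hH ?_ ?_ s₀ hs₀
  · obtain ⟨q, hq1, hq2⟩ := hz
    refine Fin.cases ?_ ?_ q hq1 hq2
    · intro h1 h2
      simp only [Fin.cons_zero] at h1 h2
      left
      rw [h2]
      norm_num
    · intro q h1 h2
      simp only [Fin.cons_succ] at h1 h2
      rw [ford_eq] at h1 h2
      exact Or.inr ⟨ray q, hray q, h1, h2⟩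
  · intro q
    refine Fin.cases ?_ ?_ q
    · simp
    · intro q
      simp only [Fin.cons_succ]
      by_contra h
      have h0 : ∑ i, ray q i = 0 := by omega
      rw [Finset.sum_eq_zero_iff] at h0
      exact (hray q).1 (funext fun i => h0 i (Finset.mem_univ i))
  · intro s hs
    rw [hFI s hs, hI, spoly_eq]
    rfl
  · intro s hs
    rw [hHI s hs, Fin.prod_univ_succ]
    simp only [Fin.cons_zero, Fin.cons_succ, Nat.cast_one]
    rw [mul_comm s (1 : ℂ)]

end Pool.Agent.W425.PN
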