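import Pool.Agent.W425.PN.Zm
import Pool.Agent.W803.SM.ZF

set_option autoImplicit false

/-! Project PN: the candidate poles, adapted from `W803.SM.ZF`. -/

namespace Pool.Agent.W425.PN

open MeasureTheory Pool.Agent.W426.SM Pool.Agent.W803.SM

/-- the conclusion of (ZF) -/
def ZFc {n k : ℕ} (A : Fin n → ℕ) (m : Fin k → Fin n → ℕ) (c : Fin k → ℚ) (e : ℕ) : Prop :=
    ∃ S : Finset ℕ, ∀ (p : ℕ) [Fact p.Prime], p ∉ S →
      ∀ [MeasurableSpace (Fin n → PadicInt p)] [BorelSpace (Fin n → PadicInt p)],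
      ∃ (T : ℕ) (ray : Fin T → Fin n → ℕ) (H : ℂ → ℂ), (∀ q, IsRay m (ray q)) ∧
        Differentiable ℂ H ∧ ∀ s : ℂ, 0 < s.re →
          H s = (1 - (p : ℂ) ^ (-(1 + e * s))) *
            (∏ q, (1 - (p : ℂ) ^ (-(((∑ i, ray q i : ℕ) : ℂ) + s * ford A m e (ray q))))) *
            ∫ x, ((pval p (spoly A m c e) x : ℝ) : ℂ) ^ s
              ∂(Measure.addHaar : Measure (Fin n → PadicInt p))

theorem zf (h1 : S_ZC) {n k : ℕ} (A : Fin n → ℕ) (m : Fin k → Fin n → ℕ) (c : Fin k → ℚ)
    (e : ℕ) (hk : 0 < k) (h2 : ZMc A m c e) : ZFc A m c e := by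
  obtain ⟨S, hS⟩ := h2
  refine ⟨S, ?_⟩
  intro p hpf hpS hmeas hborel
  obtain ⟨V, C₀, C₁, hV, hint⟩ := hS p hpS
  have hp : 2 ≤ p := hpf.out.two_le
  choose j0 T ray P hray hP using fun τ : {τ : Finset (Fin k) // τ.Nonempty} =>
    key h1 A m e τ.1 τ.2
  set E := (Σ τ : {τ : Finset (Fin k) // τ.Nonempty}, Fin (T τ)) with hE
  set ψ : E ≃ Fin (Fintype.card E) := Fintype.equivFin E with hψ
  set D : {τ : Finset (Fin k) // τ.Nonempty} → ℂ → ℂ :=
    fun τ s => ∏ q, (1 - W p A m e s (ray τ q)) with hD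
  set H : ℂ → ℂ := fun s => V * ∑ τ : {τ : Finset (Fin k) // τ.Nonempty},
    ((C₀ τ : ℂ) * (1 - (p : ℂ) ^ (-(1 + e * s))) + (C₁ τ : ℂ) * (p : ℂ) ^ (-(e * s))) *
      MvPolynomial.aeval (Y p A m e (j0 τ) s) (P τ) *
      ∏ τ' ∈ Finset.univ.erase τ, D τ' s with hH
  refine ⟨Fintype.card E, fun q => ray (ψ.symm q).1 (ψ.symm q).2, H, fun q => hray _ _, ?_, ?_⟩
  · have hW : ∀ u : Fin n → ℕ, Differentiable ℂ (fun s => W p A m e s u) := fun u =>
      diff_pow hp (((differentiable_const _).add (differentiable_id.mul_const _)).neg)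
    have hDd : ∀ τ, Differentiable ℂ (D τ) := fun τ =>
      Differentiable.fun_finsetProd fun q _ => (differentiable_const _).sub (hW _)
    refine (differentiable_const _).mul (Differentiable.fun_sum fun τ _ => ?_)
    refine ((((differentiable_const _).mul ((differentiable_const _).sub
      (diff_pow hp ((differentiable_const _).add (differentiable_id.const_mul _)).neg))).add
      ((differentiable_const _).mul (diff_pow hp (differentiable_id.const_mul _).neg))).mul
      (diff_aeval (fun i => ?_) _)).mul (Differentiable.fun_finsetProd fun τ' _ => hDd τ')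
    exact diff_pow hp (((differentiable_const _).add (differentiable_id.mul_const _)).neg)
  · intro s hs
    rw [hint s hs]
    set X : ℂ := (p : ℂ) ^ (-(1 + e * s)) with hX
    set Z : ℂ := (p : ℂ) ^ (-(e * s)) with hZ
    have hX1 : 1 - X ≠ 0 := by
      have : ‖X‖ < 1 := by
        rw [hX, Complex.norm_natCast_cpow_of_pos (by omega)]
        refine Real.rpow_lt_one_of_one_lt_of_neg (by exact_mod_cast (by omega : 1 < p)) ?_
        have h1 : 0 ≤ (e : ℝ) * s.re := by positivity
        rw [Complex.neg_re, Complex.add_re, Complex.one_re, Complex.mul_re, Complex.natCast_re,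
          Complex.natCast_im, zero_mul, sub_zero]
        linarith
      intro h
      have h3 : X = 1 := (sub_eq_zero.1 h).symm
      rw [h3, norm_one] at this
      exact lt_irrefl _ this
    set g : Finset (Fin k) → ℂ := fun τ => (C₀ τ : ℂ) + (C₁ τ : ℂ) * (Z / (1 - X)) with hg
    -- the sum
    have hsumm : Summable (fun u : Fin n → ℕ => W p A m e s u * g (filt m u)) := by
      refine Summable.of_norm_bounded
        (g := fun u : Fin n → ℕ => (∏ i, ((1 : ℝ) / 2) ^ u i) * ∑ τ : Finset (Fin k), ‖g τ‖)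
        (summable_half.mul_right _) fun u => ?_
      rw [norm_mul]
      refine mul_le_mul (norm_W hp A m e hs u) ?_ (norm_nonneg _)
        (Finset.prod_nonneg fun i _ => by positivity)
      exact Finset.single_le_sum (f := fun τ => ‖g τ‖) (fun τ _ => norm_nonneg _)
        (Finset.mem_univ (filt m u))
    have hsplit : ∑' u : Fin n → ℕ, W p A m e s u * g (filt m u) =
        ∑ τ : {τ : Finset (Fin k) // τ.Nonempty},
          (∑' u : ({u | filt m u = τ.1} : Set (Fin n → ℕ)), W p A m e s u) * g τ.1 := by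
      set φ : (Fin n → ℕ) → {τ : Finset (Fin k) // τ.Nonempty} :=
        fun u => ⟨filt m u, filt_nonempty hk m u⟩ with hφ
      have h3 := (Equiv.sigmaFiberEquiv φ).tsum_eq
        (fun u : Fin n → ℕ => W p A m e s u * g (filt m u))
      have h4 : Summable (fun x : (Σ τ, {u // φ u = τ}) =>
          W p A m e s ((Equiv.sigmaFiberEquiv φ) x) *
            g (filt m ((Equiv.sigmaFiberEquiv φ) x))) :=
        (Equiv.summable_iff (Equiv.sigmaFiberEquiv φ)).2 hsumm
      rw [← h3, h4.tsum_sigma, tsum_fintype]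
      refine Finset.sum_congr rfl fun τ _ => ?_
      rw [← tsum_mul_right]
      have h5 : ({u | filt m u = τ.1} : Set (Fin n → ℕ)) = {u | φ u = τ} := by
        ext u
        simp only [Set.mem_ofPred_eq, hφ]
        exact ⟨fun h => Subtype.ext h, fun h => congrArg Subtype.val h⟩
      rw [tsum_congr_set_coe (fun u : Fin n → ℕ => W p A m e s u * g τ.1) h5]
      refine tsum_congr fun u => ?_
      have h6 : filt m u.1 = τ.1 := congrArg Subtype.val u.2
      show W p A m e s u.1 * g (filt m u.1) = _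
      rw [h6]
    have hprod : ∏ q : Fin (Fintype.card E),
        (1 - W p A m e s (ray (ψ.symm q).1 (ψ.symm q).2)) = ∏ τ, D τ s := by
      rw [Equiv.prod_comp ψ.symm (fun x : E => 1 - W p A m e s (ray x.1 x.2)),
        Fintype.prod_sigma]
    show H s = (1 - X) * (∏ q : Fin (Fintype.card E),
        (1 - W p A m e s (ray (ψ.symm q).1 (ψ.symm q).2))) *
        (V * ∑' u : Fin n → ℕ, W p A m e s u * g (filt m u))
    rw [hprod, hsplit]
    simp only [hH]
    rw [mul_left_comm]
    congr 1
    rw [Finset.mul_sum]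
    refine Finset.sum_congr rfl fun τ _ => ?_
    rw [← Finset.mul_prod_erase Finset.univ (fun τ => D τ s) (Finset.mem_univ τ)]
    have h7 : (∑' u : ({u | filt m u = τ.1} : Set (Fin n → ℕ)), W p A m e s u) * D τ s =
        MvPolynomial.aeval (Y p A m e (j0 τ) s) (P τ) := hP τ p hp s hs
    have h8 : g τ.1 * (1 - X) = (C₀ τ : ℂ) * (1 - X) + (C₁ τ : ℂ) * Z := by
      simp only [hg]
      field_simp
    rw [← h7, ← hX, ← hZ, ← h8]
    ring

end Pool.Agent.W425.PN
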