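import Pool.Agent.W425.PN.Idn
import Pool.Agent.W424.SM.ZMU
import Pool.Agent.W22.SM.ZMA

set_option autoImplicit false

/-! Project PN: distribution of the orders, adapted from `W424.SM.ZMU` and `W22.SM.ZMA`. -/

namespace Pool.Agent.W425.PN

open MeasureTheory Pool.Agent.W426.SM Pool.Agent.W424.SM.ZMU Pool.Agent.W22.SM.ZMA

/-- the conclusion of (ZMA) -/
def ZMAc {n k : ℕ} (m : Fin k → Fin n → ℕ) (c : Fin k → ℚ) : Prop :=
    ∃ S : Finset ℕ, ∀ (p : ℕ) [Fact p.Prime], p ∉ S →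
      ∀ [MeasurableSpace (Fin n → PadicInt p)] [BorelSpace (Fin n → PadicInt p)],
      ∃ C₀ C₁ : Finset (Fin k) → ℝ, ∀ u : Fin n → ℕ,
        ((Measure.addHaar : Measure (Fin n → PadicInt p))
            {x | (∀ i, ‖x i‖ = (p : ℝ) ^ (-(u i : ℤ))) ∧
              ‖gp p m c 0 x‖ = (p : ℝ) ^ (-(gord m u : ℤ))}).toReal =
          ((Measure.addHaar : Measure (Fin n → PadicInt p)) Set.univ).toReal *
            (p : ℝ) ^ (-((∑ i, u i : ℕ) : ℤ)) *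
            C₀ (Finset.univ.filter fun j => ∑ i, u i * m j i = gord m u) ∧
        ∀ l : ℕ, ((Measure.addHaar : Measure (Fin n → PadicInt p))
            {x | (∀ i, ‖x i‖ = (p : ℝ) ^ (-(u i : ℤ))) ∧
              ‖gp p m c 0 x‖ = (p : ℝ) ^ (-((gord m u : ℤ) + (l + 1)))}).toReal =
          ((Measure.addHaar : Measure (Fin n → PadicInt p)) Set.univ).toReal *
            (p : ℝ) ^ (-((∑ i, u i : ℕ) : ℤ)) *
            C₁ (Finset.univ.filter fun j => ∑ i, u i * m j i = gord m u) * (p : ℝ) ^ (-(l : ℤ))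

section
variable {n k : ℕ} {p : ℕ} [hp : Fact p.Prime]

lemma eval_le_one (B : MvPolynomial (Fin n) ℚ)
    (hB : ∀ w ∈ B.support, ‖((B.coeff w : ℚ) : ℚ_[p])‖ ≤ 1) (y : Fin n → ℤ_[p]) :
    ‖MvPolynomial.eval₂ (algebraMap ℚ ℚ_[p]) (fun i => ((y i : ℤ_[p]) : ℚ_[p])) B‖ ≤ 1 := by
  rw [MvPolynomial.eval₂_eq']
  refine IsUltrametricDist.norm_sum_le_of_forall_le_of_nonneg zero_le_one fun w hw => ?_
  rw [norm_mul, norm_prod]
  have h1 : ‖algebraMap ℚ ℚ_[p] (B.coeff w)‖ ≤ 1 := by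
    have := hB w hw
    simpa using this
  refine mul_le_one₀ h1 (Finset.prod_nonneg fun i _ => norm_nonneg _) ?_
  refine Finset.prod_le_one (fun i _ => norm_nonneg _) fun i _ => ?_
  rw [norm_pow]
  exact pow_le_one₀ (norm_nonneg _) (PadicInt.norm_le_one _)

lemma coe_GG (m : Fin k → Fin n → ℕ) (b : Fin k → ℤ_[p]) (y : Fin n → ℤ_[p]) :
    ((GG m b y : ℤ_[p]) : ℚ_[p]) = ∑ j, (b j : ℚ_[p]) * ∏ i, ((y i : ℤ_[p]) : ℚ_[p]) ^ m j i := by
  have h : ∀ x : ℤ_[p], (x : ℚ_[p]) = PadicInt.Coe.ringHom x := fun _ => rfl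
  unfold GG XX
  simp only [h, map_sum, map_mul, map_prod, map_pow]

lemma coe_DD (m : Fin k → Fin n → ℕ) (b : Fin k → ℤ_[p]) (i : Fin n) (y : Fin n → ℤ_[p]) :
    ((DD m b i y : ℤ_[p]) : ℚ_[p]) =
      ∑ j, (m j i : ℚ_[p]) * ((b j : ℚ_[p]) * ∏ i, ((y i : ℤ_[p]) : ℚ_[p]) ^ m j i) := by
  have h : ∀ x : ℤ_[p], (x : ℚ_[p]) = PadicInt.Coe.ringHom x := fun _ => rfl
  unfold DD XX
  simp only [h, map_sum, map_mul, map_prod, map_pow, map_natCast]

/-- nondegeneracy modulo `p` -/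
lemma nondeg_mod (m : Fin k → Fin n → ℕ) (c : Fin k → ℚ) (τ : Finset (Fin k)) (M : ℕ)
    (B0 : MvPolynomial (Fin n) ℚ) (B : Fin n → MvPolynomial (Fin n) ℚ)
    (hid : (∏ i, MvPolynomial.X i : MvPolynomial (Fin n) ℚ) ^ M =
      B0 * (∑ j ∈ τ, MvPolynomial.C (c j) * ∏ i, MvPolynomial.X i ^ m j i) +
        ∑ i, B i * ∑ j ∈ τ, MvPolynomial.C (c j * (m j i : ℚ)) *
          ∏ i', MvPolynomial.X i' ^ m j i')
    (hB0 : ∀ w ∈ B0.support, ‖((B0.coeff w : ℚ) : ℚ_[p])‖ ≤ 1)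
    (hB : ∀ i, ∀ w ∈ (B i).support, ‖(((B i).coeff w : ℚ) : ℚ_[p])‖ ≤ 1)
    (b : Fin k → ℤ_[p]) (hb : ∀ j, (b j : ℚ_[p]) = if j ∈ τ then (c j : ℚ_[p]) else 0)
    (y : Fin n → ℤ_[p]) (hy : ∀ i, ‖y i‖ = 1) (hG : ‖GG m b y‖ < 1) :
    ∃ i, ‖DD m b i y‖ = 1 := by
  by_contra hcon
  push Not at hcon
  have hD : ∀ i, ‖DD m b i y‖ < 1 := fun i => lt_of_le_of_ne (PadicInt.norm_le_one _) (hcon i)
  have h1 := congrArg (MvPolynomial.eval₂ (algebraMap ℚ ℚ_[p])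
    (fun i => ((y i : ℤ_[p]) : ℚ_[p]))) hid
  have e0 : MvPolynomial.eval₂ (algebraMap ℚ ℚ_[p]) (fun i => ((y i : ℤ_[p]) : ℚ_[p]))
      (∑ j ∈ τ, MvPolynomial.C (c j) * ∏ i, MvPolynomial.X i ^ m j i) =
      ((GG m b y : ℤ_[p]) : ℚ_[p]) := by
    rw [coe_GG, MvPolynomial.eval₂_sum, ← Finset.sum_filter_add_sum_filter_not Finset.univ
      (fun j => j ∈ τ)]
    rw [Finset.sum_eq_zero (s := Finset.univ.filter fun j => j ∉ τ) (fun j hj => by
      rw [hb j, if_neg (Finset.mem_filter.1 hj).2, zero_mul]), add_zero]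
    refine Finset.sum_congr (by ext j; simp) fun j hj => ?_
    have hj' : j ∈ τ := by simpa using hj
    rw [hb j, if_pos hj']
    simp [MvPolynomial.eval₂_mul, MvPolynomial.eval₂_prod, MvPolynomial.eval₂_pow]
  have ei : ∀ i, MvPolynomial.eval₂ (algebraMap ℚ ℚ_[p]) (fun i => ((y i : ℤ_[p]) : ℚ_[p]))
      (∑ j ∈ τ, MvPolynomial.C (c j * (m j i : ℚ)) * ∏ i', MvPolynomial.X i' ^ m j i') =
      ((DD m b i y : ℤ_[p]) : ℚ_[p]) := by
    intro i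
    rw [coe_DD, MvPolynomial.eval₂_sum, ← Finset.sum_filter_add_sum_filter_not Finset.univ
      (fun j => j ∈ τ)]
    rw [Finset.sum_eq_zero (s := Finset.univ.filter fun j => j ∉ τ) (fun j hj => by
      rw [hb j, if_neg (Finset.mem_filter.1 hj).2, zero_mul, mul_zero]), add_zero]
    refine Finset.sum_congr (by ext j; simp) fun j hj => ?_
    have hj' : j ∈ τ := by simpa using hj
    rw [hb j, if_pos hj']
    simp [MvPolynomial.eval₂_mul, MvPolynomial.eval₂_prod, MvPolynomial.eval₂_pow]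
    ring
  have h2 : ‖MvPolynomial.eval₂ (algebraMap ℚ ℚ_[p]) (fun i => ((y i : ℤ_[p]) : ℚ_[p]))
      ((∏ i, MvPolynomial.X i : MvPolynomial (Fin n) ℚ) ^ M)‖ = 1 := by
    rw [MvPolynomial.eval₂_pow, MvPolynomial.eval₂_prod, norm_pow, norm_prod]
    rw [Finset.prod_eq_one (fun i _ => by
      rw [MvPolynomial.eval₂_X, ← PadicInt.norm_def, hy i]), one_pow]
  rw [h1, MvPolynomial.eval₂_add, MvPolynomial.eval₂_mul, e0, MvPolynomial.eval₂_sum] at h2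
  have h3 : ‖MvPolynomial.eval₂ (algebraMap ℚ ℚ_[p]) (fun i => ((y i : ℤ_[p]) : ℚ_[p])) B0 *
      ((GG m b y : ℤ_[p]) : ℚ_[p])‖ < 1 := by
    rw [norm_mul]
    exact mul_lt_one_of_nonneg_of_lt_one_right (eval_le_one B0 hB0 y) (norm_nonneg _)
      (by rw [← PadicInt.norm_def]; exact hG)
  have h4 : ‖∑ i, MvPolynomial.eval₂ (algebraMap ℚ ℚ_[p]) (fun i => ((y i : ℤ_[p]) : ℚ_[p]))
      (B i * ∑ j ∈ τ, MvPolynomial.C (c j * (m j i : ℚ)) *
        ∏ i', MvPolynomial.X i' ^ m j i')‖ < 1 := by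
    refine Finset.sum_induction _ (fun x : ℚ_[p] => ‖x‖ < 1) (fun x x' hx hx' =>
      lt_of_le_of_lt (IsUltrametricDist.norm_add_le_max x x') (max_lt hx hx')) (by simp)
      fun i _ => ?_
    rw [MvPolynomial.eval₂_mul, ei i, norm_mul]
    exact mul_lt_one_of_nonneg_of_lt_one_right (eval_le_one (B i) (hB i) y) (norm_nonneg _)
      (by rw [← PadicInt.norm_def]; exact hD i)
  have h5 := IsUltrametricDist.norm_add_le_max
    (MvPolynomial.eval₂ (algebraMap ℚ ℚ_[p]) (fun i => ((y i : ℤ_[p]) : ℚ_[p])) B0 *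
      ((GG m b y : ℤ_[p]) : ℚ_[p]))
    (∑ i, MvPolynomial.eval₂ (algebraMap ℚ ℚ_[p]) (fun i => ((y i : ℤ_[p]) : ℚ_[p]))
      (B i * ∑ j ∈ τ, MvPolynomial.C (c j * (m j i : ℚ)) *
        ∏ i', MvPolynomial.X i' ^ m j i'))
  rw [h2] at h5
  exact absurd (lt_of_le_of_lt h5 (max_lt h3 h4)) (lt_irrefl _)

end

/-- (ZMA) for nondegenerate polynomials -/
theorem zma {n k : ℕ} (m : Fin k → Fin n → ℕ) (c : Fin k → ℚ) (hk : 0 < k)
    (hid : ∀ u : Fin n → ℕ, Idn m c (Finset.univ.filter fun j => ∑ i, u i * m j i = gord m u)) :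
    ZMAc m c := by
  classical
  -- the identities
  have hid' : ∀ τ : Finset (Fin k), ∃ (M : ℕ) (B0 : MvPolynomial (Fin n) ℚ)
      (B : Fin n → MvPolynomial (Fin n) ℚ),
      (∃ u : Fin n → ℕ, τ = Finset.univ.filter fun j => ∑ i, u i * m j i = gord m u) →
      (∏ i, MvPolynomial.X i : MvPolynomial (Fin n) ℚ) ^ M =
      B0 * (∑ j ∈ τ, MvPolynomial.C (c j) * ∏ i, MvPolynomial.X i ^ m j i) +
        ∑ i, B i * ∑ j ∈ τ, MvPolynomial.C (c j * (m j i : ℚ)) *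
          ∏ i', MvPolynomial.X i' ^ m j i' := by
    intro τ
    by_cases h : ∃ u : Fin n → ℕ, τ = Finset.univ.filter fun j => ∑ i, u i * m j i = gord m u
    · obtain ⟨u, hu⟩ := h
      obtain ⟨M, B0, B, hB⟩ := hid u
      exact ⟨M, B0, B, fun _ => by rw [hu]; exact hB⟩
    · exact ⟨0, 0, fun _ => 0, fun h' => absurd h' h⟩
  choose M B0 B hB using hid'
  refine ⟨(Finset.univ.biUnion fun j => (c j).den.primeFactors) ∪
    Finset.univ.biUnion fun τ : Finset (Fin k) =>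
      ((B0 τ).support.biUnion fun w => ((B0 τ).coeff w).den.primeFactors) ∪
      Finset.univ.biUnion fun i => (B τ i).support.biUnion fun w =>
        ((B τ i).coeff w).den.primeFactors, ?_⟩
  intro p hp hpS _ _
  rw [Finset.mem_union, not_or] at hpS
  have hrat : ∀ q : ℚ, p ∉ q.den.primeFactors → ‖((q : ℚ) : ℚ_[p])‖ ≤ 1 := fun q hq =>
    Padic.norm_rat_le_one fun hd => hq (Nat.mem_primeFactors.2 ⟨hp.out, hd, q.den_ne_zero⟩)
  have hcn : ∀ j, ‖((c j : ℚ) : ℚ_[p])‖ ≤ 1 := fun j =>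
    hrat _ fun h => hpS.1 (Finset.mem_biUnion.2 ⟨j, Finset.mem_univ j, h⟩)
  have hB0n : ∀ τ, ∀ w ∈ (B0 τ).support, ‖(((B0 τ).coeff w : ℚ) : ℚ_[p])‖ ≤ 1 := fun τ w hw =>
    hrat _ fun h => hpS.2 (Finset.mem_biUnion.2 ⟨τ, Finset.mem_univ τ,
      Finset.mem_union_left _ (Finset.mem_biUnion.2 ⟨w, hw, h⟩)⟩)
  have hBn : ∀ τ i, ∀ w ∈ (B τ i).support, ‖(((B τ i).coeff w : ℚ) : ℚ_[p])‖ ≤ 1 :=
    fun τ i w hw => hrat _ fun h => hpS.2 (Finset.mem_biUnion.2 ⟨τ, Finset.mem_univ τ,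
      Finset.mem_union_right _ (Finset.mem_biUnion.2 ⟨i, Finset.mem_univ i,
        Finset.mem_biUnion.2 ⟨w, hw, h⟩⟩)⟩)
  have hp0 : (0 : ℝ) < p := by exact_mod_cast hp.out.pos
  let cz : Fin k → ℤ_[p] := fun j => ⟨((c j : ℚ) : ℚ_[p]), hcn j⟩
  let bt : Finset (Fin k) → Fin k → ℤ_[p] := fun τ j => if j ∈ τ then cz j else 0
  let μ : Measure (Fin n → PadicInt p) := Measure.addHaar
  have hμ : (Measure.addHaar : Measure (Fin n → PadicInt p)) = μ := rfl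
  rw [hμ]
  have hV : 0 < (μ Set.univ).toReal := by
    refine ENNReal.toReal_pos ?_ (measure_ne_top μ _)
    exact (isOpen_univ.measure_pos μ Set.univ_nonempty).ne'
  refine ⟨fun τ => (μ {y | (∀ i, ‖y i‖ = 1) ∧ ‖GG m (bt τ) y‖ = 1}).toReal / (μ Set.univ).toReal,
    fun τ => (μ (UU m (bt τ) 0)).toReal / (μ Set.univ).toReal * (1 - (p : ℝ)⁻¹), ?_⟩
  intro u
  set δ : Fin k → ℕ := fun j => ∑ i, u i * m j i - gord m u with hδ
  have hδ0 : ∀ j, δ j = 0 ↔ ∑ i, u i * m j i = gord m u := by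
    intro j
    have := gord_le m u j
    simp only [hδ]
    omega
  set τ := Finset.univ.filter fun j => ∑ i, u i * m j i = gord m u with hτ
  have hmem : ∀ j, j ∈ τ ↔ δ j = 0 := fun j => by rw [hδ0, hτ]; simp
  let b : Fin k → ℤ_[p] := fun j => cz j * (p : ℤ_[p]) ^ δ j
  have hgp : ∀ y : Fin n → PadicInt p, ‖gp p m c δ y‖ = ‖GG m b y‖ := by
    intro y
    rw [PadicInt.norm_def, coe_GG]
    congr 1
  have hmodX : ∀ (y : Fin n → PadicInt p) (j : Fin k),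
      PadicInt.toZMod (XX m b y j) = PadicInt.toZMod (XX m (bt τ) y j) := by
    intro y j
    unfold XX
    rw [map_mul PadicInt.toZMod (b j), map_mul PadicInt.toZMod (bt τ j)]
    congr 1
    show PadicInt.toZMod (cz j * (p : ℤ_[p]) ^ δ j) =
      PadicInt.toZMod (if j ∈ τ then cz j else 0)
    by_cases h : δ j = 0
    · rw [if_pos ((hmem j).2 h), h, pow_zero, mul_one]
    · rw [if_neg (fun h' => h ((hmem j).1 h')), map_zero, map_mul, map_pow, toZMod_p, zero_pow h,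
        mul_zero]
  have hmod : ∀ y : Fin n → PadicInt p,
      PadicInt.toZMod (GG m b y) = PadicInt.toZMod (GG m (bt τ) y) := by
    intro y
    unfold GG
    rw [map_sum, map_sum]
    exact Finset.sum_congr rfl fun j _ => hmodX y j
  have hmodD : ∀ (y : Fin n → PadicInt p) (i : Fin n),
      PadicInt.toZMod (DD m b i y) = PadicInt.toZMod (DD m (bt τ) i y) := by
    intro y i
    unfold DD
    rw [map_sum, map_sum]
    refine Finset.sum_congr rfl fun j _ => ?_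
    rw [map_mul, map_mul, hmodX y j]
  have hnd : ∀ y : Fin n → ℤ_[p], (∀ i, ‖y i‖ = 1) → ‖GG m b y‖ < 1 →
      ∃ i, ‖DD m b i y‖ = 1 := by
    intro y h1 h2
    rw [← toZMod_eq_zero, hmod y, toZMod_eq_zero] at h2
    obtain ⟨i, hi⟩ := nondeg_mod m c τ (M τ) (B0 τ) (B τ) (hB τ ⟨u, hτ⟩) (hB0n τ) (hBn τ)
      (bt τ) (fun j => by
        show ((if j ∈ τ then cz j else 0 : ℤ_[p]) : ℚ_[p]) = _
        split_ifs
        · rfl
        · rfl) y h1 h2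
    refine ⟨i, ?_⟩
    rw [← toZMod_ne_zero, hmodD y i, toZMod_ne_zero]
    exact hi
  have hUU0 : UU m b 0 = UU m (bt τ) 0 := by
    ext y
    show (∀ i, ‖y i‖ = 1) ∧ (p : ℤ_[p]) ^ (0 + 1) ∣ GG m b y ↔
      (∀ i, ‖y i‖ = 1) ∧ (p : ℤ_[p]) ^ (0 + 1) ∣ GG m (bt τ) y
    rw [zero_add, pow_one, ← toZMod_eq_zero', ← toZMod_eq_zero', hmod y]
  have hpne : (p : ℝ) ≠ 0 := hp0.ne'
  have h1 : (μ {y | (∀ i, ‖y i‖ = 1) ∧ ‖gp p m c δ y‖ = 1}).toReal =
      (μ Set.univ).toReal * ((μ {y | (∀ i, ‖y i‖ = 1) ∧ ‖GG m (bt τ) y‖ = 1}).toReal /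
      (μ Set.univ).toReal) := by
    have hset : {y : Fin n → PadicInt p | (∀ i, ‖y i‖ = 1) ∧ ‖gp p m c δ y‖ = 1} =
        {y | (∀ i, ‖y i‖ = 1) ∧ ‖GG m (bt τ) y‖ = 1} := by
      ext y
      simp only [Set.mem_ofPred_eq, hgp y]
      rw [← toZMod_ne_zero, ← toZMod_ne_zero, hmod y]
    rw [hset]
    field_simp
  have h2 : ∀ l : ℕ, (μ {y | (∀ i, ‖y i‖ = 1) ∧
      ‖gp p m c δ y‖ = (p : ℝ) ^ (-((l : ℤ) + 1))}).toReal =
      (μ Set.univ).toReal * ((μ (UU m (bt τ) 0)).toReal / (μ Set.univ).toReal *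
      (1 - (p : ℝ)⁻¹)) * (p : ℝ) ^ (-(l : ℤ)) := by
    intro l
    have hset : {y : Fin n → PadicInt p | (∀ i, ‖y i‖ = 1) ∧
        ‖gp p m c δ y‖ = (p : ℝ) ^ (-((l : ℤ) + 1))} = UU m b l \ UU m b (l + 1) := by
      rw [← diff_eq]
      ext y
      simp only [Set.mem_ofPred_eq, hgp y]
    rw [hset]
    have hsub : UU m b (l + 1) ⊆ UU m b l := fun y hy =>
      ⟨hy.1, (pow_dvd_pow _ (by omega)).trans hy.2⟩
    rw [measure_sdiff hsub (meas_UU m b (l + 1)).nullMeasurableSet (measure_ne_top μ _),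
      ENNReal.toReal_sub_of_le (measure_mono hsub) (measure_ne_top μ _),
      UU_real m b hnd l μ, UU_real m b hnd (l + 1) μ, hUU0]
    have e : (p : ℝ) ^ (-((l + 1 : ℕ) : ℤ)) = (p : ℝ) ^ (-(l : ℤ)) * (p : ℝ)⁻¹ := by
      rw [← zpow_sub_one₀ hpne]
      congr 1
      push_cast
      ring
    rw [e]
    field_simp
  constructor
  · have h3 := set_eq (p := p) m c u 1
    rw [mul_one] at h3
    rw [h3, ← hμ, measure_image, hμ, h1]
    ring
  · intro l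
    have h3 := set_eq (p := p) m c u ((p : ℝ) ^ (-((l : ℤ) + 1)))
    rw [← zpow_add₀ hp0.ne', ← neg_add] at h3
    rw [h3, ← hμ, measure_image, hμ, h2 l]
    ring

end Pool.Agent.W425.PN
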