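import Pool.Agent.W425.PN.Zma
import Pool.Agent.W880.SM.ZM

set_option autoImplicit false

/-! Project PN: the zeta function as a sum, adapted from `W880.SM.ZM`. -/

namespace Pool.Agent.W425.PN

open MeasureTheory Pool.Agent.W426.SM Pool.Agent.W880.SM

/-- the conclusion of (ZM) -/
def ZMc {n k : ℕ} (A : Fin n → ℕ) (m : Fin k → Fin n → ℕ) (c : Fin k → ℚ) (e : ℕ) : Prop :=
    ∃ S : Finset ℕ, ∀ (p : ℕ) [Fact p.Prime], p ∉ S →
      ∀ [MeasurableSpace (Fin n → PadicInt p)] [BorelSpace (Fin n → PadicInt p)],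
      ∃ (V : ℝ) (C₀ C₁ : Finset (Fin k) → ℝ), 0 < V ∧
        ∀ s : ℂ, 0 < s.re →
          ∫ x, ((pval p (spoly A m c e) x : ℝ) : ℂ) ^ s
              ∂(Measure.addHaar : Measure (Fin n → PadicInt p)) =
            V * ∑' u : Fin n → ℕ,
              ((p : ℂ) ^ (-(((∑ i, u i : ℕ) : ℂ) + s * ford A m e u))) *
                ((C₀ (Finset.univ.filter fun j => ∑ i, u i * m j i = gord m u) : ℂ) +
                  (C₁ (Finset.univ.filter fun j => ∑ i, u i * m j i = gord m u) : ℂ) *
                    ((p : ℂ) ^ (-(e * s)) / (1 - (p : ℂ) ^ (-(1 + e * s)))))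

theorem zm {n k : ℕ} (A : Fin n → ℕ) (m : Fin k → Fin n → ℕ) (c : Fin k → ℚ) (e : ℕ)
    (he : 0 < e) (h : ZMAc m c) : ZMc A m c e := by
  obtain ⟨S, hS⟩ := h
  refine ⟨S ∪ Finset.univ.biUnion (fun j => (c j).den.primeFactors), ?_⟩
  intro p hp hpS _ _
  obtain ⟨C₀, C₁, hC⟩ := hS p (fun h => hpS (Finset.mem_union_left _ h))
  have hcp : ∀ j, ‖(c j : Padic p)‖ ≤ 1 := by
    intro j
    apply Padic.norm_rat_le_one
    intro hd
    apply hpS
    apply Finset.mem_union_right
    exact Finset.mem_biUnion.2 ⟨j, Finset.mem_univ _,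
      Nat.mem_primeFactors.2 ⟨hp.out, hd, (c j).den_ne_zero⟩⟩
  set μ : Measure (Fin n → PadicInt p) := Measure.addHaar with hμ
  have hfin : μ Set.univ < ⊤ := isCompact_univ.measure_lt_top
  have hVpos : 0 < (μ Set.univ).toReal :=
    ENNReal.toReal_pos (isOpen_univ.measure_ne_zero μ Set.univ_nonempty) hfin.ne
  refine ⟨(μ Set.univ).toReal, C₀, C₁, hVpos, ?_⟩
  intro s hs
  have hs0 : s ≠ 0 := by
    rintro rfl
    simp at hs
  have hfm : IsFiniteMeasure μ := ⟨hfin⟩
  set F : (Fin n → PadicInt p) → ℂ := fun x => ((pval p (spoly A m c e) x : ℝ) : ℂ) ^ s with hF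
  have hFm : Measurable F :=
    (Complex.measurable_ofReal.comp (pval_continuous p A m c e).measurable).pow_const s
  have hFb : ∀ x, ‖F x‖ ≤ 1 := by
    intro x
    rw [hF]
    simp only
    rw [Complex.norm_cpow_eq_rpow_re_of_nonneg (pval_nonneg p _ x) hs.ne']
    exact Real.rpow_le_one (pval_nonneg p _ x) (pval_le_one p A m c e hcp x) hs.le
  have hFi : Integrable F μ :=
    Integrable.of_bound hFm.aestronglyMeasurable 1 (Filter.Eventually.of_forall hFb)
  have h1 : ∫ x in ⋃ v, W p m c v, F x ∂μ = ∫ x, F x ∂μ := by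
    apply setIntegral_eq_integral_of_ae_compl_eq_zero
    have hnull : ∀ᵐ x ∂μ, ∀ i, x i ≠ 0 := by
      rw [ae_all_iff]
      intro i
      rw [ae_iff]
      simpa using null_coord p i
    filter_upwards [hnull] with x hx hxU
    have hg : gp p m c 0 x = 0 := by
      by_contra hg
      exact hxU (mem_iUnion_W p m c hcp x hx hg)
    rw [hF]
    simp only
    rw [pval_spoly, hg, norm_zero, zero_pow he.ne', mul_zero, Complex.ofReal_zero,
      Complex.zero_cpow hs0]
  have h2 : HasSum (fun v => ∫ x in W p m c v, F x ∂μ) (∫ x in ⋃ v, W p m c v, F x ∂μ) :=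
    hasSum_integral_iUnion (fun v => (W_closed p m c v).measurableSet) (W_disj p m c)
      hFi.integrableOn
  have h3 : ∀ v, ∫ x in W p m c v, F x ∂μ =
      ((μ (W p m c v)).toReal : ℂ) * (p : ℂ) ^ (-(s * ((ford A m e v.1 + e * v.2 : ℕ) : ℂ))) := by
    intro v
    have h4 : ∫ x in W p m c v, F x ∂μ =
        ∫ x in W p m c v, (p : ℂ) ^ (-(s * ((ford A m e v.1 + e * v.2 : ℕ) : ℂ))) ∂μ := by
      apply setIntegral_congr_fun (W_closed p m c v).measurableSet
      intro x hx
      rw [hF]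
      simp only
      rw [pval_W p A m c e v x hx, cpow_zpow]
    rw [h4, setIntegral_const]
    simp [Measure.real]
  rw [h1] at h2
  simp_rw [h3] at h2
  have h5 := h2.prod_fiberwise (g := fun u => (((μ Set.univ).toReal : ℝ) : ℂ) *
      (((p : ℂ) ^ (-(((∑ i, u i : ℕ) : ℂ) + s * ford A m e u))) *
        ((C₀ (Finset.univ.filter fun j => ∑ i, u i * m j i = gord m u) : ℂ) +
          (C₁ (Finset.univ.filter fun j => ∑ i, u i * m j i = gord m u) : ℂ) *
            ((p : ℂ) ^ (-(e * s)) / (1 - (p : ℂ) ^ (-(1 + e * s))))))) ?_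
  · rw [← h5.tsum_eq, tsum_mul_left]
  · intro u
    refine sum_l p (μ Set.univ).toReal
      (C₀ (Finset.univ.filter fun j => ∑ i, u i * m j i = gord m u))
      (C₁ (Finset.univ.filter fun j => ∑ i, u i * m j i = gord m u)) (∑ i, u i)
      (ford A m e u) e s hs (fun l => (μ (W p m c (u, l))).toReal) ?_ ?_
    · have := (hC u).1
      simp only [W, Nat.cast_zero, add_zero]
      exact this
    · intro l
      have := (hC u).2 l
      simp only [W]
      push_cast at this ⊢
      exact this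

end Pool.Agent.W425.PN
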